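import Pool.Agent.Run7.h104.AC.Defs

/-!
# Polar coordinates on an annulus (piece POL)
-/

set_option autoImplicit false

open MeasureTheory Complex Set Filter Topology Metric

namespace Pool.Agent.Run7.h921.AC

open Pool.Agent.Run7.h104.AC

lemma integrable_polar {h : ℂ → ℝ} (hh : Integrable h) :
    IntegrableOn (fun p : ℝ × ℝ => p.1 * h (Complex.polarCoord.symm p))
      (Ioi (0 : ℝ) ×ˢ Ioo (-Real.pi) Real.pi) := by
  have h1 : Integrable (fun p : ℝ × ℝ => h (Complex.measurableEquivRealProd.symm p)) :=
    (Complex.volume_preserving_equiv_real_prod.symm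
      Complex.measurableEquivRealProd).integrable_comp_of_integrable hh
  have h2 := (integrableOn_image_iff_integrableOn_abs_det_fderiv_smul volume
    (s := polarCoord.target) polarCoord.open_target.measurableSet
    (fun p _ => (hasFDerivAt_polarCoord_symm p).hasFDerivWithinAt)
    polarCoord.symm.injOn (fun p => h (Complex.measurableEquivRealProd.symm p))).1
    h1.integrableOn
  have h3 : polarCoord.target = Ioi (0 : ℝ) ×ˢ Ioo (-Real.pi) Real.pi := rfl
  rw [← h3]
  refine h2.congr_fun ?_ polarCoord.open_target.measurableSet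
  intro p hp
  have hp0 : 0 < p.1 := hp.1
  simp only [det_fderivPolarCoordSymm, abs_of_pos hp0, smul_eq_mul]
  rfl

lemma circleMap_polar (r θ : ℝ) : circleMap 0 r θ = Complex.polarCoord.symm (r, θ) := by
  rw [Complex.polarCoord_symm_apply]
  simp [circleMap, Complex.exp_mul_I]

lemma two_pi_avg (f : ℂ → ℝ) (r : ℝ) : 2 * Real.pi * r * Real.circleAverage f 0 r =
    ∫ θ in Ioo (-Real.pi) Real.pi, r * f (Complex.polarCoord.symm (r, θ)) := by
  have h1 : ∫ θ in (0 : ℝ)..2 * Real.pi, f (circleMap 0 r θ) =
      ∫ θ in (-Real.pi)..Real.pi, f (circleMap 0 r θ) := by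
    have hp : Function.Periodic (fun θ => f (circleMap 0 r θ)) (2 * Real.pi) := by
      intro θ
      show f (circleMap 0 r (θ + 2 * Real.pi)) = f (circleMap 0 r θ)
      rw [periodic_circleMap 0 r θ]
    have h2 := hp.intervalIntegral_add_eq 0 (-Real.pi)
    rw [zero_add] at h2
    rw [h2]
    congr 1
    ring
  have hpi : (2 * Real.pi) ≠ 0 := by positivity
  rw [Real.circleAverage_def, h1, intervalIntegral.integral_of_le (by linarith [Real.pi_pos]),
    integral_Ioc_eq_integral_Ioo, smul_eq_mul, integral_const_mul]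
  simp only [circleMap_polar]
  field_simp

lemma inner_eq (δ : ℝ) (f : ℂ → ℝ) {r : ℝ} (hr : 0 < r) :
    ∫ θ in Ioo (-Real.pi) Real.pi, r * (Ann δ).indicator f (Complex.polarCoord.symm (r, θ)) =
      (Ioo δ 1).indicator (fun r => 2 * Real.pi * r * Real.circleAverage f 0 r) r := by
  by_cases h : r ∈ Ioo δ 1
  · rw [indicator_of_mem h, two_pi_avg]
    refine integral_congr_ae (Eventually.of_forall fun θ => ?_)
    show r * (Ann δ).indicator f _ = _
    rw [indicator_of_mem]
    show δ < ‖Complex.polarCoord.symm (r, θ)‖ ∧ ‖Complex.polarCoord.symm (r, θ)‖ < 1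
    rw [Complex.norm_polarCoord_symm, abs_of_pos hr]
    exact h
  · rw [indicator_of_notMem h]
    have : ∀ θ : ℝ, r * (Ann δ).indicator f (Complex.polarCoord.symm (r, θ)) = 0 := by
      intro θ
      rw [indicator_of_notMem, mul_zero]
      intro h2
      apply h
      have h3 : δ < ‖Complex.polarCoord.symm (r, θ)‖ ∧ ‖Complex.polarCoord.symm (r, θ)‖ < 1 := h2
      rw [Complex.norm_polarCoord_symm, abs_of_pos hr] at h3
      exact h3
    rw [integral_congr_ae (Eventually.of_forall this)]
    exact integral_zero _ _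

/-- **POL**. -/
theorem t_POL : S_POL := by
  intro δ f hδ hδ1 hf
  have hm : MeasurableSet (Ann δ) := by
    have : Ann δ = {z : ℂ | δ < ‖z‖} ∩ {z : ℂ | ‖z‖ < 1} := rfl
    rw [this]
    exact (measurableSet_lt measurable_const measurable_norm).inter
      (measurableSet_lt measurable_norm measurable_const)
  have hh : Integrable ((Ann δ).indicator f) := (integrable_indicator_iff hm).2 hf
  have h1 := integrable_polar hh
  have h2 : Integrable (fun p : ℝ × ℝ => p.1 * (Ann δ).indicator f (Complex.polarCoord.symm p))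
      ((volume.restrict (Ioi (0 : ℝ))).prod (volume.restrict (Ioo (-Real.pi) Real.pi))) := by
    rw [Measure.prod_restrict]
    exact h1
  have h3 := h2.integral_prod_left
  have h4 : IntegrableOn ((Ioo δ 1).indicator
      fun r => 2 * Real.pi * r * Real.circleAverage f 0 r) (Ioi (0 : ℝ)) := by
    refine IntegrableOn.congr_fun h3 ?_ measurableSet_Ioi
    intro r hr
    exact inner_eq δ f hr
  have hsub : Ioo δ 1 ⊆ Ioi (0 : ℝ) := fun r hr => lt_trans hδ hr.1
  have h5 : IntegrableOn (fun r => 2 * Real.pi * r * Real.circleAverage f 0 r) (Ioo δ 1) := by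
    refine IntegrableOn.congr_fun (h4.mono_set hsub) ?_ measurableSet_Ioo
    intro r hr
    exact indicator_of_mem hr _
  refine ⟨?_, ?_⟩
  · rw [intervalIntegrable_iff_integrableOn_Ioo_of_le hδ1.le]
    exact h5
  · have e1 : ∫ z in Ann δ, f z = ∫ z, (Ann δ).indicator f z := (integral_indicator hm).symm
    rw [e1, ← Complex.integral_comp_polarCoord_symm]
    have e2 : polarCoord.target = Ioi (0 : ℝ) ×ˢ Ioo (-Real.pi) Real.pi := rfl
    rw [e2]
    have e3 : ∫ p in Ioi (0 : ℝ) ×ˢ Ioo (-Real.pi) Real.pi,
        p.1 • (Ann δ).indicator f (Complex.polarCoord.symm p) =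
        ∫ r in Ioi (0 : ℝ), ∫ θ in Ioo (-Real.pi) Real.pi,
          r * (Ann δ).indicator f (Complex.polarCoord.symm (r, θ)) := by
      have := integral_prod _ h2
      rw [Measure.prod_restrict] at this
      exact this
    rw [e3, setIntegral_congr_fun measurableSet_Ioi fun r hr => inner_eq δ f hr,
      setIntegral_indicator measurableSet_Ioo, inter_eq_self_of_subset_right hsub,
      intervalIntegral.integral_of_le hδ1.le, integral_Ioc_eq_integral_Ioo]

end Pool.Agent.Run7.h921.AC
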